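import Pool.Agent.N598.OHF.Cover

/-!
# From exact covers to partitions of the gadget graph into triangles
-/

namespace Pool.Agent.N598.OHF

open Pool.Agent.NPC.H632

theorem at_eq (S : Sys) (j i : ℕ) : at' S j i = cp (S.getD j (0, 0, 0)) i := rfl

/-- from an exact cover to a partition into `q + 3 m` cliques -/
theorem colour_of_cover {S : Sys} {q : ℕ} (hX : X3C (S, q)) :
    ∃ c : Lb → ℕ, (∀ z ∈ vs S.length (3 * q), c z < q + 3 * S.length) ∧
      ∀ z ∈ vs S.length (3 * q), ∀ w ∈ vs S.length (3 * q), z ≠ w → c z = c w →
        ad S z w = true := by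
  classical
  obtain ⟨C, hC, hperm⟩ := hX
  simp only at hC hperm
  have hlen : C.length = q := X3C_length hperm
  set m := S.length with hm
  have hidx : ∀ t ∈ C, S.idxOf t < m ∧ S.getD (S.idxOf t) (0, 0, 0) = t := by
    intro t ht
    have h1 : S.idxOf t < S.length := List.idxOf_lt_length_iff.2 (hC t ht)
    refine ⟨h1, ?_⟩
    rw [List.getD_eq_getElem _ _ h1]
    exact List.getElem_idxOf h1
  -- the triple of an element
  have hel : ∀ x < 3 * q, ∃ t ∈ C, ∃ i < 3, cp t i = x := by
    intro x hx
    have h1 : x ∈ C.flatMap el := hperm.mem_iff.2 (List.mem_range.2 hx)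
    obtain ⟨t, ht, h2⟩ := List.mem_flatMap.1 h1
    exact ⟨t, ht, mem_el_iff.1 h2⟩
  choose! tt htt ii hii hcp using hel
  set ch : ℕ → Prop := fun j => S.getD j (0, 0, 0) ∈ C ∧ S.idxOf (S.getD j (0, 0, 0)) = j with hch
  set c : Lb → ℕ := fun z =>
    if z.1 = 0 then 3 * S.idxOf (tt z.2.1) + ii z.2.1
    else if z.1 = 3 then
      (if ch z.2.1 then 3 * m + C.idxOf (S.getD z.2.1 (0, 0, 0)) else 3 * z.2.1 + z.2.2)
    else 3 * z.2.1 + z.2.2 with hc
  have c0 : ∀ x y, c (0, x, y) = 3 * S.idxOf (tt x) + ii x := fun x y => by simp [hc]
  have cm : ∀ t j i, t = 1 ∨ t = 2 → c (t, j, i) = 3 * j + i := by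
    rintro t j i (rfl | rfl) <;> simp [hc]
  have c3 : ∀ j i, c (3, j, i) = if ch j then 3 * m + C.idxOf (S.getD j (0, 0, 0))
      else 3 * j + i := fun j i => by simp [hc]
  -- symmetric relation; it suffices to treat ordered kinds
  have main : ∀ z ∈ vs m (3 * q), ∀ w ∈ vs m (3 * q), z.1 ≤ w.1 → z ≠ w → c z = c w →
      ad S z w = true := by
    intro z hz w hw hle hne hcc
    obtain ⟨t, j, i⟩ := z
    obtain ⟨t', j', i'⟩ := w
    simp only at hle
    rcases mem_vs.1 hz with ⟨a1, a2, a3⟩ | ⟨a1, a2, a3⟩
    · simp only at a1 a2 a3
      subst a1; subst a3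
      rw [c0] at hcc
      have hi1 := hii j a2
      rcases mem_vs.1 hw with ⟨b1, b2, b3⟩ | ⟨b1, b2, b3⟩
      · simp only at b1 b2 b3
        subst b1; subst b3
        rw [c0] at hcc
        have hi2 := hii j' b2
        have e1 : S.idxOf (tt j) = S.idxOf (tt j') := by omega
        have e2 : ii j = ii j' := by omega
        have e3 : tt j = tt j' := by
          rw [← (hidx _ (htt j a2)).2, e1, (hidx _ (htt j' b2)).2]
        exfalso
        apply hne
        have e4 := hcp j a2
        have e5 := hcp j' b2
        rw [← e3, ← e2, e4] at e5
        rw [e5]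
      · simp only at b1 b2 b3
        have hkey : S.idxOf (tt j) = j' → ii j = i' → at' S j' i' = j := by
          intro e1 e2
          rw [at_eq, ← e1, (hidx _ (htt j a2)).2, ← e2]
          exact hcp j a2
        by_cases h3 : t' = 3
        · subst h3
          rw [c3] at hcc
          exfalso
          have h1 := (hidx _ (htt j a2)).1
          by_cases hcj : ch j'
          · rw [if_pos hcj] at hcc
            omega
          · rw [if_neg hcj] at hcc
            have e1 : S.idxOf (tt j) = j' := by omega
            apply hcj
            have e2 := (hidx _ (htt j a2)).2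
            rw [e1] at e2
            refine ⟨?_, ?_⟩
            · rw [e2]; exact htt j a2
            · rw [e2]; exact e1
        · have ht' : t' = 1 ∨ t' = 2 := by omega
          rw [cm _ _ _ ht'] at hcc
          have e1 : S.idxOf (tt j) = j' := by omega
          have e2 : ii j = i' := by omega
          rw [← hkey e1 e2]
          exact ad_0m ht'
    · simp only at a1 a2 a3
      rcases mem_vs.1 hw with ⟨b1, b2, b3⟩ | ⟨b1, b2, b3⟩
      · simp only at b1
        omega
      · simp only at b1 b2 b3
        by_cases h3 : t = 3
        · subst h3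
          have h3' : t' = 3 := by omega
          subst h3'
          rw [c3, c3] at hcc
          by_cases hcj : ch j <;> by_cases hcj' : ch j'
          · rw [if_pos hcj, if_pos hcj'] at hcc
            have e1 : C.idxOf (S.getD j (0, 0, 0)) = C.idxOf (S.getD j' (0, 0, 0)) := by omega
            have e2 : S.getD j (0, 0, 0) = S.getD j' (0, 0, 0) := by
              have g1 := List.idxOf_lt_length_iff.2 hcj.1
              have g2 := List.idxOf_lt_length_iff.2 hcj'.1
              rw [← List.getElem_idxOf g1, ← List.getElem_idxOf g2]
              simp only [e1]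
            have e3 : j = j' := by
              rw [← hcj.2, ← hcj'.2, e2]
            subst e3
            refine ad_33 (fun h => hne ?_)
            rw [h]
          · rw [if_pos hcj, if_neg hcj'] at hcc
            omega
          · rw [if_neg hcj, if_pos hcj'] at hcc
            omega
          · rw [if_neg hcj, if_neg hcj'] at hcc
            exfalso
            apply hne
            have e1 : j = j' := by omega
            have e2 : i = i' := by omega
            rw [e1, e2]
        · have ht : t = 1 ∨ t = 2 := by omega
          rw [cm _ _ _ ht] at hcc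
          have hfin : 3 * j + i = 3 * j' + i' → ad S (t, j, i) (t', j', i') = true := by
            intro h
            have e1 : j = j' := by omega
            have e2 : i = i' := by omega
            subst e1; subst e2
            refine ad_corner a1 b1 (fun h => hne ?_)
            rw [h]
          by_cases h3' : t' = 3
          · subst h3'
            rw [c3] at hcc
            by_cases hcj' : ch j'
            · rw [if_pos hcj'] at hcc
              omega
            · rw [if_neg hcj'] at hcc
              exact hfin hcc
          · rw [cm _ _ _ (by omega)] at hcc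
            exact hfin hcc
  refine ⟨c, ?_, ?_⟩
  · intro z hz
    obtain ⟨t, j, i⟩ := z
    rcases mem_vs.1 hz with ⟨a1, a2, a3⟩ | ⟨a1, a2, a3⟩
    · simp only at a1 a2 a3
      subst a1
      rw [c0]
      have h1 := (hidx _ (htt j a2)).1
      have h2 := hii j a2
      omega
    · simp only at a1 a2 a3
      by_cases h3 : t = 3
      · subst h3
        rw [c3]
        split_ifs with h
        · have h1 : C.idxOf (S.getD j (0, 0, 0)) < C.length := List.idxOf_lt_length_iff.2 h.1
          omega
        · omega
      · rw [cm _ _ _ (by omega)]
        omega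
  · intro z hz w hw hne hcc
    rcases le_total z.1 w.1 with h | h
    · exact main z hz w hw h hne hcc
    · rw [ad_symm]
      exact main w hw z hz h hne.symm hcc.symm

end Pool.Agent.N598.OHF
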