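import Mathlib

/-!
# The gadget graph of a system of triples: combinatorics

`S` is a list of triples of natural numbers. The graph `ad S` has a vertex `(0, x, 0)` for every
element `x` and, for every index `j` of a triple and every position `i < 3`, the vertices
`(1, j, i)`, `(2, j, i)`, `(3, j, i)`. For each `j` and `i` the two triangles
`x, (1, j, i), (2, j, i)` (where `x` is the `i`-th component of the triple) and
`(1, j, i), (2, j, i), (3, j, i)`, and for each `j` the triangle of the vertices `(3, j, i)`.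
-/

namespace Pool.Agent.N598.OHF

/-- systems of triples -/
abbrev Sys := List (ℕ × ℕ × ℕ)

/-- the labels of the vertices -/
abbrev Lb := ℕ × ℕ × ℕ

/-- the component of a triple at position `i` -/
def cp (t : ℕ × ℕ × ℕ) (i : ℕ) : ℕ := if i = 0 then t.1 else if i = 1 then t.2.1 else t.2.2

/-- the element at position `i` of the triple with index `j` -/
def at' (S : Sys) (j i : ℕ) : ℕ := cp (S.getD j (0, 0, 0)) i

/-- one half of the adjacency -/
def ad0 (S : Sys) (a b : Lb) : Bool :=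
  (decide (a.1 = 0) && ((decide (b.1 = 1) || decide (b.1 = 2)) &&
    decide (at' S b.2.1 b.2.2 = a.2.1))) ||
  (decide (a.1 = 1) && ((decide (b.1 = 2) || decide (b.1 = 3)) && decide (a.2 = b.2))) ||
  (decide (a.1 = 2) && (decide (b.1 = 3) && decide (a.2 = b.2))) ||
  (decide (a.1 = 3) && (decide (b.1 = 3) && (decide (a.2.1 = b.2.1) &&
    !(decide (a.2.2 = b.2.2)))))

/-- the adjacency -/
def ad (S : Sys) (a b : Lb) : Bool := ad0 S a b || ad0 S b a

/-- the adjacency of the complement -/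
def co (S : Sys) (a b : Lb) : Bool := !(decide (a = b)) && !(ad S a b)

/-- the list of the pairs `(j, i)` -/
def prs (m : ℕ) : List (ℕ × ℕ) := (List.range m) ×ˢ (List.range 3)

/-- the list of vertices; there are `n` elements -/
def vs (m n : ℕ) : List Lb :=
  (List.range n).map (fun x => (0, x, 0)) ++ ((prs m).map (fun p => (1, p)) ++
  ((prs m).map (fun p => (2, p)) ++ (prs m).map (fun p => (3, p))))

theorem mem_vs {m n : ℕ} {z : Lb} :
    z ∈ vs m n ↔ (z.1 = 0 ∧ z.2.1 < n ∧ z.2.2 = 0) ∨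
      ((z.1 = 1 ∨ z.1 = 2 ∨ z.1 = 3) ∧ z.2.1 < m ∧ z.2.2 < 3) := by
  obtain ⟨t, j, i⟩ := z
  simp only [vs, prs, List.mem_append, List.mem_map, List.mem_range, Prod.mk.injEq,
    List.mem_product, Prod.exists]
  constructor
  · rintro (⟨a, h, rfl, rfl, rfl⟩ | ⟨a, b, ⟨h, h'⟩, rfl, rfl, rfl⟩ |
      ⟨a, b, ⟨h, h'⟩, rfl, rfl, rfl⟩ | ⟨a, b, ⟨h, h'⟩, rfl, rfl, rfl⟩)
    · exact Or.inl ⟨rfl, h, rfl⟩
    · exact Or.inr ⟨Or.inl rfl, h, h'⟩
    · exact Or.inr ⟨Or.inr (Or.inl rfl), h, h'⟩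
    · exact Or.inr ⟨Or.inr (Or.inr rfl), h, h'⟩
  · rintro (⟨rfl, h, rfl⟩ | ⟨rfl | rfl | rfl, h, h'⟩)
    · exact Or.inl ⟨j, h, rfl, rfl, rfl⟩
    · exact Or.inr (Or.inl ⟨j, i, ⟨h, h'⟩, rfl, rfl, rfl⟩)
    · exact Or.inr (Or.inr (Or.inl ⟨j, i, ⟨h, h'⟩, rfl, rfl, rfl⟩))
    · exact Or.inr (Or.inr (Or.inr ⟨j, i, ⟨h, h'⟩, rfl, rfl, rfl⟩))

theorem prs_nodup (m : ℕ) : (prs m).Nodup := List.nodup_range.product List.nodup_range

theorem vs_nodup (m n : ℕ) : (vs m n).Nodup := by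
  unfold vs
  have hr : ∀ t : ℕ, ((prs m).map (fun p => ((t, p) : Lb))).Nodup :=
    fun t => (prs_nodup m).map (fun a b h => by simpa using h)
  have h0 : ((List.range n).map (fun x => ((0, x, 0) : Lb))).Nodup :=
    List.nodup_range.map (fun a b h => by simpa using h)
  simp only [List.nodup_append]
  refine ⟨h0, ⟨hr 1, ⟨hr 2, hr 3, ?_⟩, ?_⟩, ?_⟩
  all_goals
    simp only [List.mem_append, List.mem_map]
    intro a ha b hb hab
    subst hab
    obtain ⟨i, _, rfl⟩ := ha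
    simp at hb

theorem vs_length (m n : ℕ) : (vs m n).length = n + 9 * m := by
  simp [vs, prs, List.length_product]
  ring

theorem ad_symm (S : Sys) (a b : Lb) : ad S a b = ad S b a := by
  unfold ad; exact Bool.or_comm _ _

theorem co_symm (S : Sys) (a b : Lb) : co S a b = co S b a := by
  unfold co; rw [ad_symm]; simp only [eq_comm]

theorem co_irrefl (S : Sys) (a : Lb) : co S a a = false := by
  unfold co; simp

theorem ad_irrefl (S : Sys) (z : Lb) : ad S z z = false := by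
  obtain ⟨t, j, i⟩ := z
  simp [ad, ad0]
  omega

/-- neighbours of an element -/
theorem ad_zero {S : Sys} {x y : ℕ} {w : Lb} (h : ad S (0, x, y) w = true) :
    (w.1 = 1 ∨ w.1 = 2) ∧ at' S w.2.1 w.2.2 = x := by
  obtain ⟨t, k, l⟩ := w
  simp only [ad, ad0, Bool.or_eq_true, Bool.and_eq_true, decide_eq_true_eq, Bool.not_eq_true',
    decide_eq_false_iff_not, Prod.mk.injEq] at h ⊢
  omega

/-- neighbours of a vertex of the first or second kind -/
theorem ad_mid {S : Sys} {t j i : ℕ} {w : Lb} (ht : t = 1 ∨ t = 2) (h : ad S (t, j, i) w = true) :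
    (w.1 = 0 ∧ at' S j i = w.2.1) ∨ ((w.1 = 1 ∨ w.1 = 2 ∨ w.1 = 3) ∧ w.1 ≠ t ∧ w.2 = (j, i)) := by
  obtain ⟨t', k, l⟩ := w
  simp only [ad, ad0, Bool.or_eq_true, Bool.and_eq_true, decide_eq_true_eq, Bool.not_eq_true',
    decide_eq_false_iff_not, Prod.mk.injEq] at h ⊢
  omega

/-- neighbours of a vertex of the third kind -/
theorem ad_three {S : Sys} {j i : ℕ} {w : Lb} (h : ad S (3, j, i) w = true) :
    ((w.1 = 1 ∨ w.1 = 2) ∧ w.2 = (j, i)) ∨ (w.1 = 3 ∧ w.2.1 = j ∧ w.2.2 ≠ i) := by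
  obtain ⟨t', k, l⟩ := w
  simp only [ad, ad0, Bool.or_eq_true, Bool.and_eq_true, decide_eq_true_eq, Bool.not_eq_true',
    decide_eq_false_iff_not, Prod.mk.injEq] at h ⊢
  omega

theorem ad_03 {S : Sys} {x y j i : ℕ} : ad S (0, x, y) (3, j, i) = false := by
  simp [ad, ad0]

theorem ad_0m {S : Sys} {t j i y : ℕ} (ht : t = 1 ∨ t = 2) :
    ad S (0, at' S j i, y) (t, j, i) = true := by
  rcases ht with rfl | rfl <;> simp [ad, ad0]

theorem ad_corner {S : Sys} {t t' j i : ℕ} (ht : t = 1 ∨ t = 2 ∨ t = 3)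
    (ht' : t' = 1 ∨ t' = 2 ∨ t' = 3) (hne : t ≠ t') : ad S (t, j, i) (t', j, i) = true := by
  rcases ht with rfl | rfl | rfl <;> rcases ht' with rfl | rfl | rfl <;>
    first
      | exact absurd rfl hne
      | simp [ad, ad0]

theorem ad_33 {S : Sys} {j i i' : ℕ} (h : i ≠ i') : ad S (3, j, i) (3, j, i') = true := by
  simp [ad, ad0, h]

end Pool.Agent.N598.OHF
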