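import Pool.Agent.N598.OHF.Hole
import Pool.Agent.H632R2.X3C

/-!
# Partitions of the gadget graph into triangles and exact covers
-/

namespace Pool.Agent.N598.OHF

open Pool.Agent.NPC.H632

/-- triangle of the first kind -/
def T1 (S : Sys) (j i : ℕ) : Finset Lb := {(0, at' S j i, 0), (1, j, i), (2, j, i)}

/-- triangle of the second kind -/
def T2 (j i : ℕ) : Finset Lb := {(1, j, i), (2, j, i), (3, j, i)}

/-- triangle of the third kind -/
def T3 (j : ℕ) : Finset Lb := {(3, j, 0), (3, j, 1), (3, j, 2)}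

theorem T1_card (S : Sys) (j i : ℕ) : (T1 S j i).card = 3 := by
  unfold T1
  rw [Finset.card_eq_three]
  exact ⟨_, _, _, by simp, by simp, by simp, rfl⟩

theorem T2_card (j i : ℕ) : (T2 j i).card = 3 := by
  unfold T2
  rw [Finset.card_eq_three]
  exact ⟨_, _, _, by simp, by simp, by simp, rfl⟩

theorem T3_card (j : ℕ) : (T3 j).card = 3 := by
  unfold T3
  rw [Finset.card_eq_three]
  exact ⟨_, _, _, by simp, by simp, by simp, rfl⟩

/-- cliques have at most three vertices, and the cliques with three vertices are the triangles -/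
theorem clique_card {S : Sys} {F : Finset Lb} (hok : ∀ z ∈ F, Ok z)
    (had : ∀ z ∈ F, ∀ w ∈ F, z ≠ w → ad S z w = true) :
    F.card ≤ 3 ∧ (F.card = 3 → (∃ j i, F = T1 S j i) ∨ (∃ j i, F = T2 j i) ∨ ∃ j, F = T3 j) := by
  have fin : ∀ T : Finset Lb, T.card = 3 → F ⊆ T →
      ((∃ j i, T = T1 S j i) ∨ (∃ j i, T = T2 j i) ∨ ∃ j, T = T3 j) →
      F.card ≤ 3 ∧ (F.card = 3 → (∃ j i, F = T1 S j i) ∨ (∃ j i, F = T2 j i) ∨
        ∃ j, F = T3 j) := by
    intro T hT hF h
    refine ⟨hT ▸ Finset.card_le_card hF, fun h3 => ?_⟩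
    rw [Finset.eq_of_subset_of_card_le hF (by omega)]
    exact h
  by_cases hm : ∃ z ∈ F, z.1 = 1 ∨ z.1 = 2
  · obtain ⟨⟨t, j, i⟩, hz, ht⟩ := hm
    simp only at ht
    -- the other vertices
    have key : ∀ w ∈ F, w = (0, at' S j i, 0) ∨ w = (1, j, i) ∨ w = (2, j, i) ∨
        w = (3, j, i) := by
      intro w hw
      by_cases hne : (t, j, i) = w
      · rw [← hne]
        rcases ht with rfl | rfl
        · exact Or.inr (Or.inl rfl)
        · exact Or.inr (Or.inr (Or.inl rfl))
      · have h := had _ hz w hw hne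
        have hwo := hok w hw
        obtain ⟨t', k, l⟩ := w
        rcases ad_mid ht h with ⟨a, b⟩ | ⟨a, b, c⟩
        · rcases hwo with ⟨_, c⟩ | ⟨c, _⟩
          · left
            simp only at a b c
            rw [a, b, c]
          · simp only at a c
            omega
        · simp only [Prod.mk.injEq] at a c
          obtain ⟨rfl, rfl⟩ := c
          rcases a with rfl | rfl | rfl
          · exact Or.inr (Or.inl rfl)
          · exact Or.inr (Or.inr (Or.inl rfl))
          · exact Or.inr (Or.inr (Or.inr rfl))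
    by_cases hx : ((0, at' S j i, 0) : Lb) ∈ F
    · refine fin (T1 S j i) (T1_card _ _ _) ?_ (Or.inl ⟨j, i, rfl⟩)
      intro w hw
      unfold T1
      simp only [Finset.mem_insert, Finset.mem_singleton]
      rcases key w hw with h | h | h | h
      · exact Or.inl h
      · exact Or.inr (Or.inl h)
      · exact Or.inr (Or.inr h)
      · exfalso
        rw [h] at hw
        have h1 := had _ hx _ hw (by simp)
        rw [ad_03] at h1
        exact absurd h1 (by simp)
    · refine fin (T2 j i) (T2_card _ _) ?_ (Or.inr (Or.inl ⟨j, i, rfl⟩))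
      intro w hw
      unfold T2
      simp only [Finset.mem_insert, Finset.mem_singleton]
      rcases key w hw with h | h | h | h
      · rw [h] at hw; exact absurd hw hx
      · exact Or.inl h
      · exact Or.inr (Or.inl h)
      · exact Or.inr (Or.inr h)
  · push Not at hm
    by_cases h0 : ∃ z ∈ F, z.1 = 0
    · -- an isolated vertex
      obtain ⟨⟨t, x, y⟩, hz, ht⟩ := h0
      simp only at ht
      subst ht
      have h1 : F ⊆ {(0, x, y)} := by
        intro w hw
        rw [Finset.mem_singleton]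
        by_contra hne
        have h := (ad_zero (had _ hz w hw (fun h => hne h.symm))).1
        have := hm w hw
        omega
      have h2 := Finset.card_le_card h1
      rw [Finset.card_singleton] at h2
      exact ⟨by omega, fun h => by omega⟩
    · push Not at h0
      rcases F.eq_empty_or_nonempty with rfl | ⟨⟨t, j, i⟩, hz⟩
      · simp
      · have h3 : ∀ w ∈ F, w.1 = 3 ∧ w.2.2 < 3 := by
          intro w hw
          have h1 := hm w hw
          have h2 := h0 w hw
          rcases hok w hw with ⟨a, _⟩ | ⟨a, b⟩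
          · exact absurd a h2
          · exact ⟨by omega, b⟩
        refine fin (T3 j) (T3_card j) ?_ (Or.inr (Or.inr ⟨j, rfl⟩))
        intro w hw
        obtain ⟨a, b⟩ := h3 w hw
        obtain ⟨c, _⟩ := h3 _ hz
        simp only at c
        subst c
        obtain ⟨tw, jw, iw⟩ := w
        simp only at a b
        subst a
        have hj : jw = j := by
          by_cases hne : ((3, j, i) : Lb) = (3, jw, iw)
          · simp only [Prod.mk.injEq] at hne
            exact hne.2.1.symm
          · rcases ad_three (had _ hz _ hw hne) with ⟨d, _⟩ | ⟨_, d, _⟩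
            · simp only at d; omega
            · exact d
        subst hj
        unfold T3
        simp only [Finset.mem_insert, Finset.mem_singleton, Prod.mk.injEq, true_and]
        omega

theorem mem_el_iff {t : ℕ × ℕ × ℕ} {x : ℕ} : x ∈ el t ↔ ∃ i < 3, cp t i = x := by
  unfold el cp
  simp only [List.mem_cons, List.not_mem_nil, or_false]
  constructor
  · rintro (rfl | rfl | rfl)
    · exact ⟨0, by omega, rfl⟩
    · exact ⟨1, by omega, rfl⟩
    · exact ⟨2, by omega, rfl⟩
  · rintro ⟨i, hi, h⟩
    have : i = 0 ∨ i = 1 ∨ i = 2 := by omega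
    rcases this with rfl | rfl | rfl
    · left; simpa using h.symm
    · right; left; simpa using h.symm
    · right; right; simpa using h.symm

theorem cp_inj {t : ℕ × ℕ × ℕ} (h : (el t).Nodup) {i i' : ℕ} (hi : i < 3) (hi' : i' < 3)
    (he : cp t i = cp t i') : i = i' := by
  unfold el at h
  simp only [List.nodup_cons, List.mem_cons, List.not_mem_nil, or_false, not_or,
    List.nodup_nil, not_false_eq_true, and_true] at h
  unfold cp at he
  have h1 : i = 0 ∨ i = 1 ∨ i = 2 := by omega
  have h2 : i' = 0 ∨ i' = 1 ∨ i' = 2 := by omega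
  rcases h1 with rfl | rfl | rfl <;> rcases h2 with rfl | rfl | rfl <;>
    simp only [if_true, if_false, Nat.one_ne_zero, OfNat.ofNat_ne_zero, OfNat.ofNat_ne_one,
      OfNat.one_ne_ofNat] at he <;> omega

/-- from a partition into `q + 3 m` cliques to an exact cover -/
theorem cover_of_colour {S : Sys} {q : ℕ} (hnd : ∀ t ∈ S, (el t).Nodup)
    (c : Lb → ℕ) (hc : ∀ z ∈ vs S.length (3 * q), c z < q + 3 * S.length)
    (hco : ∀ z ∈ vs S.length (3 * q), ∀ w ∈ vs S.length (3 * q), z ≠ w → c z = c w →
      ad S z w = true) : X3C (S, q) := by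
  classical
  set m := S.length with hm
  set V : Finset Lb := (vs m (3 * q)).toFinset with hV
  have hVc : V.card = 3 * (q + 3 * m) := by
    rw [hV, List.toFinset_card_of_nodup (vs_nodup _ _), vs_length]
    ring
  have hmemV : ∀ z, z ∈ V ↔ z ∈ vs m (3 * q) := fun z => List.mem_toFinset
  set F : ℕ → Finset Lb := fun k => V.filter (fun z => c z = k) with hF
  have hFc : ∀ k, (F k).card ≤ 3 ∧ ((F k).card = 3 → (∃ j i, F k = T1 S j i) ∨
      (∃ j i, F k = T2 j i) ∨ ∃ j, F k = T3 j) := by
    intro k
    refine clique_card (fun z hz => ?_) (fun z hz w hw hne => ?_)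
    · exact ok_of_mem ((hmemV z).1 (Finset.mem_filter.1 hz).1)
    · rw [hF] at hz hw
      simp only [Finset.mem_filter] at hz hw
      exact hco z ((hmemV z).1 hz.1) w ((hmemV w).1 hw.1) hne (hz.2.trans hw.2.symm)
  have hsum : ∑ k ∈ Finset.range (q + 3 * m), (F k).card = 3 * (q + 3 * m) := by
    rw [← hVc]
    exact (Finset.card_eq_sum_card_fiberwise (f := c) (t := Finset.range (q + 3 * m))
      (fun z hz => Finset.mem_coe.2 (Finset.mem_range.2 (hc z ((hmemV z).1 hz))))).symm
  have hF3 : ∀ k < q + 3 * m, (F k).card = 3 := by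
    intro k hk
    by_contra hne
    have h1 : ∑ k ∈ Finset.range (q + 3 * m), (F k).card <
        ∑ k ∈ Finset.range (q + 3 * m), 3 := by
      refine Finset.sum_lt_sum (fun k _ => (hFc k).1) ⟨k, Finset.mem_range.2 hk, ?_⟩
      have := (hFc k).1
      omega
    rw [hsum, Finset.sum_const, Finset.card_range, smul_eq_mul] at h1
    omega
  -- the class of a vertex is a triangle
  have hcl : ∀ z ∈ vs m (3 * q), ((∃ j i, F (c z) = T1 S j i) ∨
      (∃ j i, F (c z) = T2 j i) ∨ ∃ j, F (c z) = T3 j) ∧ z ∈ F (c z) := by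
    intro z hz
    exact ⟨(hFc _).2 (hF3 _ (hc z hz)), Finset.mem_filter.2 ⟨(hmemV z).2 hz, rfl⟩⟩
  have hsame : ∀ z w, z ∈ F (c w) → c z = c w := fun z w h => (Finset.mem_filter.1 h).2
  have hin : ∀ z k, z ∈ F k → z ∈ vs m (3 * q) := fun z k h =>
    (hmemV z).1 (Finset.mem_filter.1 h).1
  -- the class of an element
  have hel : ∀ x < 3 * q, ∃ j i, j < m ∧ i < 3 ∧ at' S j i = x ∧
      F (c (0, x, 0)) = T1 S j i := by
    intro x hx
    have hxv : ((0, x, 0) : Lb) ∈ vs m (3 * q) := mem_vs.2 (Or.inl ⟨rfl, hx, rfl⟩)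
    obtain ⟨h | h | h, h1⟩ := hcl _ hxv
    · obtain ⟨j, i, h⟩ := h
      rw [h] at h1
      have h2 : ((1, j, i) : Lb) ∈ F (c (0, x, 0)) := by rw [h]; simp [T1]
      have h3 := mem_vs.1 (hin _ _ h2)
      simp only at h3
      simp only [T1, Finset.mem_insert, Finset.mem_singleton, Prod.mk.injEq] at h1
      have h4 : at' S j i = x := by
        rcases h1 with h1 | h1 | h1
        · exact h1.2.1.symm
        · exact absurd h1.1 (by simp)
        · exact absurd h1.1 (by simp)
      exact ⟨j, i, by omega, by omega, h4, h⟩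
    · obtain ⟨j, i, h⟩ := h
      rw [h] at h1
      simp [T2] at h1
    · obtain ⟨j, h⟩ := h
      rw [h] at h1
      simp [T3] at h1
  -- the chosen triples
  set ch : ℕ → Prop := fun j => F (c (3, j, 0)) = T3 j with hch
  have h3v : ∀ j < m, ∀ i < 3, ((3, j, i) : Lb) ∈ vs m (3 * q) := fun j hj i hi =>
    mem_vs.2 (Or.inr ⟨Or.inr (Or.inr rfl), hj, hi⟩)
  have h1v : ∀ j < m, ∀ i < 3, ((1, j, i) : Lb) ∈ vs m (3 * q) := fun j hj i hi =>
    mem_vs.2 (Or.inr ⟨Or.inl rfl, hj, hi⟩)
  have hc3 : ∀ j < m, ∀ i < 3, F (c (3, j, i)) = T3 j ∨ F (c (3, j, i)) = T2 j i := by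
    intro j hj i hi
    obtain ⟨h | h | h, h1⟩ := hcl _ (h3v j hj i hi)
    · obtain ⟨j', i', h⟩ := h
      rw [h] at h1
      simp [T1] at h1
    · obtain ⟨j', i', h⟩ := h
      rw [h] at h1
      simp only [T2, Finset.mem_insert, Finset.mem_singleton, Prod.mk.injEq] at h1
      right
      have h5 : j = j' ∧ i = i' := by
        rcases h1 with h1 | h1 | h1
        · exact absurd h1.1 (by simp)
        · exact absurd h1.1 (by simp)
        · exact h1.2
      obtain ⟨rfl, rfl⟩ := h5
      exact h
    · obtain ⟨j', h⟩ := h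
      rw [h] at h1
      left
      have h5 : j = j' := by
        simp only [T3, Finset.mem_insert, Finset.mem_singleton, Prod.mk.injEq, true_and] at h1
        rcases h1 with h1 | h1 | h1 <;> exact h1.1
      rw [h, h5]
  have hc1 : ∀ j < m, ∀ i < 3, F (c (1, j, i)) = T1 S j i ∨ F (c (1, j, i)) = T2 j i := by
    intro j hj i hi
    obtain ⟨h | h | h, h1⟩ := hcl _ (h1v j hj i hi)
    · obtain ⟨j', i', h⟩ := h
      rw [h] at h1
      simp only [T1, Finset.mem_insert, Finset.mem_singleton, Prod.mk.injEq] at h1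
      left
      have h5 : j = j' ∧ i = i' := by
        rcases h1 with h1 | h1 | h1
        · exact absurd h1.1 (by simp)
        · exact h1.2
        · exact absurd h1.1 (by simp)
      obtain ⟨rfl, rfl⟩ := h5
      exact h
    · obtain ⟨j', i', h⟩ := h
      rw [h] at h1
      simp only [T2, Finset.mem_insert, Finset.mem_singleton, Prod.mk.injEq] at h1
      right
      have h5 : j = j' ∧ i = i' := by
        rcases h1 with h1 | h1 | h1
        · exact h1.2
        · exact absurd h1.1 (by simp)
        · exact absurd h1.1 (by simp)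
      obtain ⟨rfl, rfl⟩ := h5
      exact h
    · obtain ⟨j', h⟩ := h
      rw [h] at h1
      simp [T3] at h1
  -- all vertices of the third kind of a triple behave alike
  have hch3 : ∀ j < m, ∀ i < 3, ∀ i' < 3, F (c (3, j, i)) = T3 j → F (c (3, j, i')) = T3 j := by
    intro j hj i hi i' hi' h
    have h2 : ((3, j, i') : Lb) ∈ F (c (3, j, i)) := by
      rw [h]
      simp only [T3, Finset.mem_insert, Finset.mem_singleton, Prod.mk.injEq, true_and]
      omega
    rw [hsame _ _ h2, h]
  have hA : ∀ j < m, ch j → ∀ i < 3, F (c (1, j, i)) = T1 S j i := by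
    intro j hj hcj i hi
    rcases hc1 j hj i hi with h | h
    · exact h
    · exfalso
      have h2 : ((3, j, i) : Lb) ∈ F (c (1, j, i)) := by rw [h]; simp [T2]
      have h3 := hch3 j hj 0 (by omega) i hi hcj
      rw [hsame _ _ h2, h] at h3
      have h4 : ((1, j, i) : Lb) ∈ T3 j := by rw [← h3]; simp [T2]
      simp [T3] at h4
  have hB : ∀ j < m, ∀ i < 3, F (c (1, j, i)) = T1 S j i → ch j := by
    intro j hj i hi h
    refine hch3 j hj i hi 0 (by omega) ?_
    rcases hc3 j hj i hi with h1 | h1
    · exact h1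
    · exfalso
      have h2 : ((1, j, i) : Lb) ∈ F (c (3, j, i)) := by rw [h1]; simp [T2]
      rw [← hsame _ _ h2, h] at h1
      have h4 : ((3, j, i) : Lb) ∈ T1 S j i := by rw [h1]; simp [T2]
      simp [T1] at h4
  -- the exact cover
  have hgd : ∀ j < m, S.getD j (0, 0, 0) ∈ S := by
    intro j hj
    rw [List.getD_eq_getElem _ _ hj]
    exact List.getElem_mem _
  have hmemel : ∀ j < m, ch j → ∀ x, x ∈ el (S.getD j (0, 0, 0)) → ∃ i < 3,
      at' S j i = x ∧ F (c (0, x, 0)) = T1 S j i ∧ x < 3 * q := by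
    intro j hj hcj x hx
    obtain ⟨i, hi, h⟩ := mem_el_iff.1 hx
    have h1 := hA j hj hcj i hi
    have h2 : ((0, at' S j i, 0) : Lb) ∈ F (c (1, j, i)) := by rw [h1]; simp [T1]
    have h3 := hsame _ _ h2
    have h4 : at' S j i = x := h
    rw [h4] at h3 h2
    refine ⟨i, hi, h4, by rw [h3, h1], ?_⟩
    have h5 := mem_vs.1 (hin _ _ h2)
    simp only at h5
    omega
  refine ⟨((List.range m).filter (fun j => decide (ch j))).map (fun j => S.getD j (0, 0, 0)),
    ?_, ?_⟩
  · intro t ht
    simp only [List.mem_map, List.mem_filter, List.mem_range] at ht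
    obtain ⟨j, ⟨hj, _⟩, rfl⟩ := ht
    exact hgd j hj
  · rw [List.perm_ext_iff_of_nodup _ List.nodup_range]
    · intro x
      simp only [List.mem_flatMap, List.mem_map, List.mem_filter, List.mem_range,
        decide_eq_true_eq]
      constructor
      · rintro ⟨t, ⟨j, ⟨hj, hcj⟩, rfl⟩, hx⟩
        obtain ⟨_, _, _, _, h⟩ := hmemel j hj hcj x hx
        exact h
      · intro hx
        obtain ⟨j, i, hj, hi, h1, h2⟩ := hel x hx
        have h3 : ((1, j, i) : Lb) ∈ F (c (0, x, 0)) := by rw [h2]; simp [T1]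
        have h4 := hsame _ _ h3
        refine ⟨_, ⟨j, ⟨hj, hB j hj i hi (by rw [h4, h2])⟩, rfl⟩, mem_el_iff.2 ⟨i, hi, h1⟩⟩
    · rw [List.nodup_flatMap]
      refine ⟨?_, ?_⟩
      · intro t ht
        simp only [List.mem_map, List.mem_filter, List.mem_range] at ht
        obtain ⟨j, ⟨hj, _⟩, rfl⟩ := ht
        exact hnd _ (hgd j hj)
      · rw [List.pairwise_map]
        have hn : ((List.range m).filter (fun j => decide (ch j))).Nodup :=
          List.nodup_range.filter _
        refine List.Pairwise.imp_of_mem ?_ hn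
        intro j j' hj hj' hne
        simp only [List.mem_filter, List.mem_range, decide_eq_true_eq] at hj hj'
        intro x hx hx'
        obtain ⟨i, hi, h1, h2, _⟩ := hmemel j hj.1 hj.2 x hx
        obtain ⟨i', hi', h1', h2', _⟩ := hmemel j' hj'.1 hj'.2 x hx'
        have h3 : ((1, j, i) : Lb) ∈ T1 S j' i' := by
          rw [← h2', h2]; simp [T1]
        simp [T1] at h3
        exact hne h3.1

end Pool.Agent.N598.OHF
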