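import Pool.Agent.N598.OHF.Comb

/-!
# The gadget graph has no induced cycles with four or five vertices and no clique of size four
-/

namespace Pool.Agent.N598.OHF

/-- labels of vertices -/
def Ok (z : Lb) : Prop :=
  (z.1 = 0 ∧ z.2.2 = 0) ∨ ((z.1 = 1 ∨ z.1 = 2 ∨ z.1 = 3) ∧ z.2.2 < 3)

theorem ok_of_mem {m n : ℕ} {z : Lb} (h : z ∈ vs m n) : Ok z := by
  rcases mem_vs.1 h with ⟨a, _, b⟩ | ⟨a, _, b⟩
  · exact Or.inl ⟨a, b⟩
  · exact Or.inr ⟨a, b⟩

/-- the index of a triple -/
def Bd (S : Sys) (z : Lb) : Prop := (z.1 = 1 ∨ z.1 = 2 ∨ z.1 = 3) → z.2.1 < S.length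

theorem bd_of_mem {S : Sys} {n : ℕ} {z : Lb} (h : z ∈ vs S.length n) : Bd S z := by
  intro hz
  rcases mem_vs.1 h with ⟨a, _⟩ | ⟨_, b, _⟩
  · omega
  · exact b

/-- two nonadjacent neighbours of a vertex of kind one or two -/
theorem mid {S : Sys} {t j i : ℕ} (ht : t = 1 ∨ t = 2) {p r : Lb} (hp : Ok p) (hr : Ok r)
    (h1 : ad S (t, j, i) p = true) (h2 : ad S (t, j, i) r = true) (h3 : ad S p r = false)
    (hne : p ≠ r) :
    (p = (0, at' S j i, 0) ∧ r = (3, j, i)) ∨ (r = (0, at' S j i, 0) ∧ p = (3, j, i)) := by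
  have key : ∀ {z : Lb}, Ok z → ad S (t, j, i) z = true →
      z = (0, at' S j i, 0) ∨ z = (3, j, i) ∨ ∃ t', (t' = 1 ∨ t' = 2) ∧ z = (t', j, i) := by
    intro z hz h
    obtain ⟨t', k, l⟩ := z
    rcases ad_mid ht h with ⟨a, b⟩ | ⟨a, b, c⟩
    · rcases hz with ⟨_, c⟩ | ⟨c, _⟩
      · left
        simp only at a b c
        rw [a, b, c]
      · simp only at a c
        omega
    · simp only [Prod.mk.injEq] at a c
      obtain ⟨rfl, rfl⟩ := c
      rcases a with rfl | rfl | rfl
      · exact Or.inr (Or.inr ⟨1, Or.inl rfl, rfl⟩)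
      · exact Or.inr (Or.inr ⟨2, Or.inr rfl, rfl⟩)
      · exact Or.inr (Or.inl rfl)
  rcases key hp h1 with rfl | rfl | ⟨t1, ht1, rfl⟩
  · rcases key hr h2 with rfl | rfl | ⟨t2, ht2, rfl⟩
    · exact absurd rfl hne
    · exact Or.inl ⟨rfl, rfl⟩
    · rw [ad_0m ht2] at h3; exact absurd h3 (by simp)
  · rcases key hr h2 with rfl | rfl | ⟨t2, ht2, rfl⟩
    · exact Or.inr ⟨rfl, rfl⟩
    · exact absurd rfl hne
    · rw [ad_corner (Or.inr (Or.inr rfl)) (by omega) (by omega)] at h3
      exact absurd h3 (by simp)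
  · rcases key hr h2 with rfl | rfl | ⟨t2, ht2, rfl⟩
    · rw [ad_symm, ad_0m ht1] at h3; exact absurd h3 (by simp)
    · rw [ad_corner (by omega) (Or.inr (Or.inr rfl)) (by omega)] at h3
      exact absurd h3 (by simp)
    · have h4 : t1 ≠ t2 := fun h => hne (by rw [h])
      rw [ad_corner (by omega) (by omega) h4] at h3
      exact absurd h3 (by simp)

/-- three vertices of kinds zero and three -/
theorem outer {S : Sys} {p q r : Lb} (hp : Ok p) (hq : Ok q) (hr : Ok r)
    (np : ¬ (p.1 = 1 ∨ p.1 = 2)) (nq : ¬ (q.1 = 1 ∨ q.1 = 2)) (nr : ¬ (r.1 = 1 ∨ r.1 = 2))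
    (h1 : ad S p q = true) (h2 : ad S q r = true) : p = r ∨ ad S p r = true := by
  obtain ⟨tq, jq, iq⟩ := q
  have hq3 : tq = 3 := by
    rcases hq with ⟨a, _⟩ | ⟨a, _⟩
    · simp only at a
      subst a
      exact absurd (ad_zero h2).1 nr
    · simp only at a nq
      omega
  subst hq3
  rw [ad_symm] at h1
  obtain ⟨tp, jp, ip⟩ := p
  obtain ⟨tr, jr, ir⟩ := r
  rcases ad_three h1 with ⟨a, _⟩ | ⟨a, b, _⟩
  · exact absurd a np
  rcases ad_three h2 with ⟨c, _⟩ | ⟨c, d, _⟩
  · exact absurd c nr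
  simp only at a b c d
  subst a; subst c; subst b; subst d
  by_cases h : ip = ir
  · left; rw [h]
  · right; exact ad_33 h

theorem four_mid {S : Sys} {p q r s : Lb} (hp : Ok p) (hr : Ok r)
    (pq : ad S p q = true) (qr : ad S q r = true) (rs : ad S r s = true) (sp : ad S s p = true)
    (pr : ad S p r = false) (qs : ad S q s = false) (npr : p ≠ r) (nqs : q ≠ s) :
    ¬ (q.1 = 1 ∨ q.1 = 2) := by
  intro hq
  obtain ⟨t, j, i⟩ := q
  simp only at hq
  have key : ∀ u : Lb, ad S (0, at' S j i, 0) u = true → ad S (3, j, i) u = true →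
      (t, j, i) ≠ u → ad S (t, j, i) u = true := by
    intro u h1 h2 h3
    obtain ⟨tu, ju, iu⟩ := u
    have h4 := (ad_zero h1).1
    simp only at h4
    rcases ad_three h2 with ⟨_, b⟩ | ⟨a, _⟩
    · simp only [Prod.mk.injEq] at b
      obtain ⟨rfl, rfl⟩ := b
      refine ad_corner (by omega) (by omega) ?_
      rintro rfl
      exact h3 rfl
    · simp only at a
      omega
  rw [ad_symm] at pq
  rcases mid hq hp hr pq qr pr npr with ⟨rfl, rfl⟩ | ⟨rfl, rfl⟩
  · rw [key s (by rw [ad_symm]; exact sp) rs nqs] at qs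
    exact absurd qs (by simp)
  · rw [key s rs (by rw [ad_symm]; exact sp) nqs] at qs
    exact absurd qs (by simp)

/-- no induced cycle with four vertices -/
theorem no_four {S : Sys} {p q r s : Lb} (hp : Ok p) (hq : Ok q) (hr : Ok r) (hs : Ok s)
    (pq : ad S p q = true) (qr : ad S q r = true) (rs : ad S r s = true) (sp : ad S s p = true)
    (pr : ad S p r = false) (qs : ad S q s = false) (npr : p ≠ r) (nqs : q ≠ s) : False := by
  have sq : ad S s q = false := by rw [ad_symm]; exact qs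
  have rp : ad S r p = false := by rw [ad_symm]; exact pr
  have m1 := four_mid hp hr pq qr rs sp pr qs npr nqs
  have m2 := four_mid hq hs qr rs sp pq qs rp nqs npr.symm
  have m4 := four_mid hs hq sp pq qr rs sq pr nqs.symm npr
  rcases outer hp hq hr m4 m1 m2 pq qr with h | h
  · exact npr h
  · rw [h] at pr; exact absurd pr (by simp)

theorem five_mid {S : Sys}
    (hS : ∀ j i i', j < S.length → i < 3 → i' < 3 → at' S j i = at' S j i' → i = i')
    {p q r s u : Lb} (hp : Ok p) (hr : Ok r) (hs : Ok s) (hu : Ok u)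
    (pq : ad S p q = true) (qr : ad S q r = true) (rs : ad S r s = true) (su : ad S s u = true)
    (up : ad S u p = true)
    (pr : ad S p r = false) (qs : ad S q s = false) (qu : ad S q u = false)
    (npr : p ≠ r) (nqs : q ≠ s) (nqu : q ≠ u) (hqo : Ok q) (hb : Bd S q) :
    ¬ (q.1 = 1 ∨ q.1 = 2) := by
  intro hq
  obtain ⟨t, j, i⟩ := q
  simp only at hq
  have hi : i < 3 := by
    rcases hqo with ⟨a, _⟩ | ⟨_, b⟩
    · simp only at a; omega
    · exact b
  -- `v` is adjacent to the element, `w` to the vertex of the third kind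
  have key : ∀ v w : Lb, Ok w → ad S (0, at' S j i, 0) v = true → ad S (3, j, i) w = true →
      (t, j, i) ≠ w → ad S (t, j, i) w = false → ad S w v = true → False := by
    intro v w hw h1 h2 h3 h4 h5
    obtain ⟨tv, jv, iv⟩ := v
    obtain ⟨tw, jw, iw⟩ := w
    obtain ⟨h6, h7⟩ := ad_zero h1
    simp only at h6 h7
    rcases ad_three h2 with ⟨a, b⟩ | ⟨a, b, c⟩
    · simp only [Prod.mk.injEq] at a b
      obtain ⟨rfl, rfl⟩ := b
      rw [ad_corner (by omega) (by omega) (fun h => h3 (by rw [h]))] at h4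
      exact absurd h4 (by simp)
    · simp only at a b c
      subst a; subst b
      rcases ad_three h5 with ⟨d, e⟩ | ⟨d, _⟩
      · simp only [Prod.mk.injEq] at e
        obtain ⟨rfl, rfl⟩ := e
        have hiw : iv < 3 := by
          rcases hw with ⟨a, _⟩ | ⟨_, b⟩
          · simp at a
          · exact b
        exact c (hS _ _ _ (hb (by simp only; omega)) hiw hi h7)
      · simp only at d
        omega
  rw [ad_symm] at pq
  rcases mid hq hp hr pq qr pr npr with ⟨rfl, rfl⟩ | ⟨rfl, rfl⟩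
  · exact key u s hs (by rw [ad_symm]; exact up) rs nqs qs su
  · exact key s u hu rs (by rw [ad_symm]; exact up) nqu qu (by rw [ad_symm]; exact su)

/-- no induced cycle with five vertices -/
theorem no_five {S : Sys}
    (hS : ∀ j i i', j < S.length → i < 3 → i' < 3 → at' S j i = at' S j i' → i = i')
    {p q r s u : Lb} (hp : Ok p) (hq : Ok q) (hr : Ok r) (hs : Ok s) (hu : Ok u)
    (pq : ad S p q = true) (qr : ad S q r = true) (rs : ad S r s = true) (su : ad S s u = true)
    (up : ad S u p = true)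
    (pr : ad S p r = false) (qs : ad S q s = false) (ru : ad S r u = false)
    (sp : ad S s p = false) (uq : ad S u q = false)
    (npr : p ≠ r) (nqs : q ≠ s) (nru : r ≠ u) (nsp : s ≠ p) (nuq : u ≠ q)
    (bp : Bd S p) (bq : Bd S q) (br : Bd S r) : False := by
  have rp : ad S r p = false := by rw [ad_symm]; exact pr
  have sq : ad S s q = false := by rw [ad_symm]; exact qs
  have ps : ad S p s = false := by rw [ad_symm]; exact sp
  have qu : ad S q u = false := by rw [ad_symm]; exact uq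
  have m1 := five_mid hS hp hr hs hu pq qr rs su up pr qs qu npr nqs nuq.symm hq bq
  have m2 := five_mid hS hq hs hu hp qr rs su up pq qs ru rp nqs nru npr.symm hr br
  have m3 := five_mid hS hu hq hr hs up pq qr rs su uq pr ps nuq npr nsp.symm hp bp
  rcases outer hp hq hr m3 m1 m2 pq qr with h | h
  · exact npr h
  · rw [h] at pr; exact absurd pr (by simp)

/-- the cliques: pairwise adjacent vertices -/
theorem clique_cases {S : Sys} {p q r : Lb} (hp : Ok p) (hq : Ok q) (hr : Ok r)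
    (pq : ad S p q = true) (qr : ad S q r = true) (pr : ad S p r = true) (h0 : p.1 = 0) :
    ∃ j i, at' S j i = p.2.1 ∧ i < 3 ∧
      ((q = (1, j, i) ∧ r = (2, j, i)) ∨ (q = (2, j, i) ∧ r = (1, j, i))) := by
  obtain ⟨tp, x, y⟩ := p
  simp only at h0
  subst h0
  obtain ⟨tq, jq, iq⟩ := q
  obtain ⟨tr, jr, ir⟩ := r
  obtain ⟨a, b⟩ := ad_zero pq
  obtain ⟨c, d⟩ := ad_zero pr
  simp only at a b c d
  have hiq : iq < 3 := by
    rcases hq with ⟨e, _⟩ | ⟨_, e⟩
    · simp only at e; omega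
    · exact e
  rcases ad_mid a qr with ⟨e, _⟩ | ⟨_, e, f⟩
  · simp only at e; omega
  · simp only [Prod.mk.injEq] at e f
    obtain ⟨rfl, rfl⟩ := f
    refine ⟨jr, ir, b, hiq, ?_⟩
    rcases a with rfl | rfl <;> rcases c with rfl | rfl
    · exact absurd rfl e
    · exact Or.inl ⟨rfl, rfl⟩
    · exact Or.inr ⟨rfl, rfl⟩
    · exact absurd rfl e

end Pool.Agent.N598.OHF
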