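import Pool.Agent.N598.OHF.Colour
import Pool.Agent.H257R2.EAF.Main

/-!
# The reduction
-/

namespace Pool.Agent.N598.OHF

open Pool.Agent.NPC Pool.Agent.NPC.R671 Pool.Agent.NPC.H632
open Pool.Agent.H257R2.EAF (input Coloring SolvableOn PEqNP nx nx_cases cycleGraph_adj_nx)

/-- `G` is odd-hole-free: it has no induced subgraph isomorphic to a cycle of odd length at least
five. -/
def OddHoleFree {V : Type*} (G : SimpleGraph V) : Prop :=
  ∀ m, 2 ≤ m → IsEmpty (SimpleGraph.cycleGraph (2 * m + 1) ↪g G)

/-- `G` has no induced cycle of length at least five, and no independent set with four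
vertices. -/
def Small {V : Type*} (G : SimpleGraph V) : Prop :=
  (∀ n, 5 ≤ n → IsEmpty (SimpleGraph.cycleGraph n ↪g G)) ∧
    ∀ F : Finset V, G.IsIndepSet F → F.card ≤ 3

/-- the graph of an instance of exact cover: the complement of the graph `ad S` -/
def gr (I : Sys × ℕ) : SimpleGraph (Fin (vs I.1.length (3 * I.2)).length) :=
  listGraph (vs I.1.length (3 * I.2)) (co I.1) (co_symm I.1) (co_irrefl I.1)

theorem gr_matrix (I : Sys × ℕ) : adjMatrix (gr I) = (vs I.1.length (3 * I.2)).map (fun u =>
    (vs I.1.length (3 * I.2)).map (fun w => co I.1 u w)) := adjMatrix_listGraph _ _ _ _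

theorem gr_adj (I : Sys × ℕ) (u v : Fin (vs I.1.length (3 * I.2)).length) :
    (gr I).Adj u v ↔ u ≠ v ∧
      ad I.1 (vs I.1.length (3 * I.2))[u] (vs I.1.length (3 * I.2))[v] = false := by
  have h : (gr I).Adj u v ↔
    co I.1 (vs I.1.length (3 * I.2))[u] (vs I.1.length (3 * I.2))[v] = true := Iff.rfl
  rw [h]
  unfold co
  simp only [Bool.and_eq_true, Bool.not_eq_true', decide_eq_false_iff_not]
  have h1 : (vs I.1.length (3 * I.2))[u] = (vs I.1.length (3 * I.2))[v] ↔ u = v := by
    constructor
    · intro h
      exact Fin.ext ((List.Nodup.getElem_inj_iff (vs_nodup _ _)).1 h)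
    · intro h
      rw [h]
  rw [h1]

theorem dist_of_pr {I : Sys × ℕ} (hI : X3CPr I) : ∀ j i i', j < I.1.length → i < 3 → i' < 3 →
    at' I.1 j i = at' I.1 j i' → i = i' := by
  intro j i i' hj hi hi' h
  refine cp_inj (t := I.1.getD j (0, 0, 0)) (hI.1 _ ?_).1 hi hi' h
  rw [List.getD_eq_getElem _ _ hj]
  exact List.getElem_mem _

/-- the graph has no induced cycles of length at least five -/
theorem gr_holes {I : Sys × ℕ} (hI : X3CPr I) (n : ℕ) (hn : 5 ≤ n) :
    IsEmpty (SimpleGraph.cycleGraph n ↪g gr I) := by
  refine ⟨fun e => ?_⟩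
  set V := vs I.1.length (3 * I.2) with hV
  let g : ℕ → Lb := fun i => if h : i < n then V[(e ⟨i, h⟩ : Fin V.length)] else (0, 0)
  have hg : ∀ i (h : i < n), g i = V[(e ⟨i, h⟩ : Fin V.length)] := fun i h => dif_pos h
  have hmem : ∀ i < n, g i ∈ vs I.1.length (3 * I.2) := by
    intro i hi
    rw [hg i hi]
    exact List.getElem_mem _
  have hinj : ∀ i < n, ∀ j < n, i ≠ j → g i ≠ g j := by
    intro i hi j hj hne h
    rw [hg i hi, hg j hj] at h
    have h1 := Fin.ext ((List.Nodup.getElem_inj_iff (vs_nodup _ _)).1 h)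
    exact hne (congrArg Fin.val (e.injective h1))
  have hadj : ∀ i < n, ∀ j < n, i ≠ j →
      (ad I.1 (g i) (g j) = false ↔ (i = nx n j ∨ j = nx n i)) := by
    intro i hi j hj hne
    have h1 := e.map_adj_iff (v := ⟨i, hi⟩) (w := ⟨j, hj⟩)
    rw [cycleGraph_adj_nx (by omega), gr_adj] at h1
    rw [hg i hi, hg j hj]
    have h2 : e ⟨i, hi⟩ ≠ e ⟨j, hj⟩ := fun h => hne (congrArg Fin.val (e.injective h))
    simp only [ne_eq, h2, not_false_eq_true, true_and] at h1
    exact h1
  have hT : ∀ i < n, ∀ j < n, i ≠ j → ¬ (i = nx n j ∨ j = nx n i) →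
      ad I.1 (g i) (g j) = true := by
    intro i hi j hj hne h
    rw [← hadj i hi j hj hne] at h
    simpa using h
  have hF : ∀ i < n, ∀ j < n, i ≠ j → (i = nx n j ∨ j = nx n i) →
      ad I.1 (g i) (g j) = false := fun i hi j hj hne h => (hadj i hi j hj hne).2 h
  have hok : ∀ i < n, Ok (g i) := fun i hi => ok_of_mem (hmem i hi)
  have hbd : ∀ i < n, Bd I.1 (g i) := fun i hi => bd_of_mem (hmem i hi)
  rcases Nat.lt_or_ge n 6 with h6 | h6
  · have h5 : n = 5 := by omega
    subst h5
    refine no_five (dist_of_pr hI) (hok 0 (by omega)) (hok 2 (by omega)) (hok 4 (by omega))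
      (hok 1 (by omega)) (hok 3 (by omega)) (hT _ (by omega) _ (by omega) (by omega) (by decide))
      (hT _ (by omega) _ (by omega) (by omega) (by decide))
      (hT _ (by omega) _ (by omega) (by omega) (by decide))
      (hT _ (by omega) _ (by omega) (by omega) (by decide))
      (hT _ (by omega) _ (by omega) (by omega) (by decide))
      (hF _ (by omega) _ (by omega) (by omega) (by decide))
      (hF _ (by omega) _ (by omega) (by omega) (by decide))
      (hF _ (by omega) _ (by omega) (by omega) (by decide))
      (hF _ (by omega) _ (by omega) (by omega) (by decide))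
      (hF _ (by omega) _ (by omega) (by omega) (by decide))
      (hinj _ (by omega) _ (by omega) (by omega))
      (hinj _ (by omega) _ (by omega) (by omega))
      (hinj _ (by omega) _ (by omega) (by omega))
      (hinj _ (by omega) _ (by omega) (by omega))
      (hinj _ (by omega) _ (by omega) (by omega))
      (hbd 0 (by omega)) (hbd 2 (by omega)) (hbd 4 (by omega))
  · refine no_four (S := I.1) (hok 0 (by omega)) (hok 3 (by omega)) (hok 1 (by omega))
      (hok 4 (by omega)) (hT _ (by omega) _ (by omega) (by omega) ?_)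
      (hT _ (by omega) _ (by omega) (by omega) ?_)
      (hT _ (by omega) _ (by omega) (by omega) ?_)
      (hT _ (by omega) _ (by omega) (by omega) ?_)
      (hF _ (by omega) _ (by omega) (by omega) ?_)
      (hF _ (by omega) _ (by omega) (by omega) ?_)
      (hinj _ (by omega) _ (by omega) (by omega))
      (hinj _ (by omega) _ (by omega) (by omega))
    all_goals
      have c0 := nx_cases (n := n) (i := 0) (by omega)
      have c1 := nx_cases (n := n) (i := 1) (by omega)
      have c3 := nx_cases (n := n) (i := 3) (by omega)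
      have c4 := nx_cases (n := n) (i := 4) (by omega)
      omega

/-- the independent sets have at most three vertices -/
theorem gr_indep (I : Sys × ℕ) (F : Finset (Fin (vs I.1.length (3 * I.2)).length))
    (hF : (gr I).IsIndepSet F) : F.card ≤ 3 := by
  classical
  have hinj : Function.Injective (fun i : Fin (vs I.1.length (3 * I.2)).length =>
      (vs I.1.length (3 * I.2))[i]) := by
    intro i j h
    exact Fin.ext ((List.Nodup.getElem_inj_iff (vs_nodup _ _)).1 h)
  rw [← Finset.card_image_of_injective F hinj]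
  refine (clique_card (S := I.1) (fun z hz => ?_) (fun z hz w hw hne => ?_)).1
  · obtain ⟨i, _, rfl⟩ := Finset.mem_image.1 hz
    exact ok_of_mem (List.getElem_mem (l := vs I.1.length (3 * I.2)) i.isLt)
  · obtain ⟨i, hi, rfl⟩ := Finset.mem_image.1 hz
    obtain ⟨j, hj, rfl⟩ := Finset.mem_image.1 hw
    have hij : i ≠ j := fun h => hne (by rw [h])
    have h2 : ¬ (gr I).Adj i j := hF hi hj hij
    rw [gr_adj] at h2
    by_contra h3
    rw [Bool.not_eq_true] at h3
    exact h2 ⟨hij, h3⟩

theorem gr_small {I : Sys × ℕ} (hI : X3CPr I) : Small (gr I) :=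
  ⟨gr_holes hI, gr_indep I⟩

/-- exact covers and colourability -/
theorem gr_colorable {I : Sys × ℕ} (hI : X3CPr I) :
    X3C I ↔ (gr I).Colorable (I.2 + 3 * I.1.length) := by
  obtain ⟨S, q⟩ := I
  set V := vs S.length (3 * q) with hV
  constructor
  · intro h
    obtain ⟨c, hc, hco⟩ := colour_of_cover h
    refine ⟨SimpleGraph.Coloring.mk (fun i => (⟨c V[i], hc _ (List.getElem_mem _)⟩ :
      Fin (q + 3 * S.length))) ?_⟩
    intro i j hij he
    have h1 := (gr_adj _ _ _).1 hij
    have h2 : V[i] ≠ V[j] := fun h => h1.1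
      (Fin.ext ((List.Nodup.getElem_inj_iff (vs_nodup _ _)).1 h))
    have h3 := hco _ (List.getElem_mem _) _ (List.getElem_mem _) h2 (congrArg Fin.val he)
    exact absurd (h3.symm.trans h1.2) (by simp)
  · rintro ⟨C⟩
    have hex : ∀ z ∈ V, ∃ i : Fin V.length, V[i] = z := by
      intro z hz
      obtain ⟨i, hi, h⟩ := List.getElem_of_mem hz
      exact ⟨⟨i, hi⟩, h⟩
    choose v hv using hex
    refine cover_of_colour (fun t ht => (hI.1 t ht).1)
      (fun z => if h : z ∈ V then ((C (v z h) : Fin _) : ℕ) else 0)
      (fun z hz => ?_) (fun z hz w hw hne he => ?_)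
    · rw [dif_pos hz]
      exact (C (v z hz)).isLt
    · rw [dif_pos hz, dif_pos hw] at he
      by_contra h3
      rw [Bool.not_eq_true] at h3
      have hadj : (gr (S, q)).Adj (v z hz) (v w hw) := by
        rw [gr_adj]
        refine ⟨fun h => hne ?_, ?_⟩
        · rw [← hv z hz, ← hv w hw, h]
        · change ad S V[v z hz] V[v w hw] = false
          rw [hv z hz, hv w hw]
          exact h3
      exact C.valid hadj (Fin.ext he)

/-! ### Polynomial time -/

theorem at_poly {α : Type} [TEnc α] {S : α → Sys} {a b : α → ℕ} (h1 : Poly S)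
    (h2 : Poly a) (h3 : Poly b) : Poly (fun x => at' (S x) (a x) (b x)) := by
  unfold at' cp
  fun_prop

attribute [fun_prop] at_poly
attribute [local irreducible] at'

theorem ad0_poly : Poly (fun x : Sys × Lb × Lb => ad0 x.1 x.2.1 x.2.2) := by
  unfold ad0
  fun_prop

attribute [local irreducible] ad0

theorem ad_poly : Poly (fun x : Sys × Lb × Lb => ad x.1 x.2.1 x.2.2) := by
  unfold ad
  exact Poly.or ad0_poly (ad0_poly.comp (Poly.pair (Poly.fst Poly.id)
    (Poly.pair (Poly.snd (Poly.snd Poly.id)) (Poly.fst (Poly.snd Poly.id)))))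

attribute [local irreducible] ad

theorem co_poly : Poly (fun x : Sys × Lb × Lb => co x.1 x.2.1 x.2.2) := by
  unfold co
  exact Poly.and (by fun_prop) (Poly.not ad_poly)

attribute [local irreducible] co

/-- the number `q`, bounded by the number of triples -/
def qq (I : Sys × ℕ) : ℕ := min I.2 I.1.length

theorem qq_upoly : UPoly qq :=
  UPoly.of_le (by unfold qq; fun_prop) (UPoly.length (Poly.fst Poly.id))
    (fun I => min_le_right _ _)

theorem qq_eq {I : Sys × ℕ} (hI : X3CPr I) : qq I = I.2 := min_eq_left hI.2.2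

theorem vs_poly : Poly (fun I : Sys × ℕ => vs I.1.length (3 * qq I)) := by
  have h1 : UPoly (fun I : Sys × ℕ => 3 * qq I) := UPoly.mul (UPoly.const 3) qq_upoly
  have h2 : UPoly (fun I : Sys × ℕ => I.1.length) := UPoly.length (by fun_prop)
  have g1 := h1.range
  have g2 := h2.range
  have g3 : Poly (fun _ : Sys × ℕ => List.range 3) := NPC.Poly.const _
  have g4 : Poly (fun I : Sys × ℕ => prs I.1.length) := by
    unfold prs
    exact poly_product g2 g3
  unfold vs
  refine NPC.Poly.append (by fun_prop) ?_
  refine NPC.Poly.append (by fun_prop) ?_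
  refine NPC.Poly.append (by fun_prop) ?_
  fun_prop

attribute [local irreducible] vs qq

/-- the output of the reduction -/
def out (I : Sys × ℕ) : List (List Bool) × ℕ :=
  ((vs I.1.length (3 * qq I)).map (fun u => (vs I.1.length (3 * qq I)).map (fun w => co I.1 u w)),
    qq I + 3 * I.1.length)

theorem out_poly : Poly out := by
  have hq : Poly qq := qq_upoly.toPoly
  refine NPC.Poly.pair ?_ (by fun_prop)
  exact NPC.Poly.map vs_poly (F := fun (I : Sys × ℕ) u =>
      (vs I.1.length (3 * qq I)).map (fun w => co I.1 u w))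
    (NPC.Poly.map (l := fun x : (Sys × ℕ) × Lb => vs x.1.1.length (3 * qq x.1))
      (F := fun x w => co x.1.1 x.2 w) (vs_poly.comp (Poly.fst Poly.id))
      (co_poly.comp (f := fun x : ((Sys × ℕ) × Lb) × Lb => (x.1.1.1, (x.1.2, x.2)))
        (by fun_prop)))

theorem out_eq {I : Sys × ℕ} (hI : X3CPr I) :
    out I = (adjMatrix (gr I), I.2 + 3 * I.1.length) := by
  unfold out
  rw [gr_matrix, qq_eq hI]

/-- Every language in `NP` is reduced, in polynomial time, to the colouring problem for graphs
without induced cycles of length at least five and without independent sets of size four. -/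
theorem hard (L : Set (List Bool)) (hL : InNP L) :
    ∃ f : List Bool → List Bool, PolyTime f ∧ ∀ w, ∃ (n : ℕ) (G : SimpleGraph (Fin n)) (k : ℕ),
      f w = input G k ∧ Small G ∧ (w ∈ L ↔ G.Colorable k) := by
  obtain ⟨g, hg, hgp, hgL⟩ := hardPr_X3C L hL
  refine ⟨fun w => bits (out (g w)), PC.toPolyTime_bits out_poly g hg, fun w => ?_⟩
  refine ⟨_, gr (g w), (g w).2 + 3 * (g w).1.length, ?_, gr_small (hgp w), ?_⟩
  · change bits (out (g w)) = _
    unfold input
    rw [out_eq (hgp w)]
  · rw [← gr_colorable (hgp w), hgL w]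

theorem Small.oddHoleFree {V : Type*} {G : SimpleGraph V} (h : Small G) : OddHoleFree G :=
  fun m hm => h.1 (2 * m + 1) (by omega)

theorem pEqNP_of_solvable (h : SolvableOn (fun _ G => Small G)) : PEqNP := by
  obtain ⟨A, hA, hA'⟩ := h
  intro L hL
  obtain ⟨f, hf, hfL⟩ := hard L hL
  refine ⟨fun w => A (f w), Pool.Agent.H642R2.TMSim.polyTime_comp hA hf, fun w => ?_⟩
  obtain ⟨n, G, k, h1, h2, h3⟩ := hfL w
  change w ∈ L ↔ A (f w) = [true]
  rw [h3, h1, hA' n G k h2]

/-! ### Optimal colourings -/

/-- `l` is the list of the colours of the vertices in a proper colouring of `G` that uses exactly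
`χ(G)` colours -/
def IsOptimal {n : ℕ} (G : SimpleGraph (Fin n)) (l : List ℕ) : Prop :=
  ∃ C : G.Coloring ℕ, l = List.ofFn (fun v => C v) ∧
    (((Finset.univ.image C).card : ℕ) : ℕ∞) = G.chromaticNumber

/-- There is a polynomial-time algorithm that outputs, for every graph `G` with the property `D`,
a proper colouring of `G` with `χ(G)` colours. -/
def FindableOn (D : ∀ n : ℕ, SimpleGraph (Fin n) → Prop) : Prop :=
  ∃ A : List Bool → List Bool, PolyTime A ∧ ∀ (n : ℕ) (G : SimpleGraph (Fin n)),
    D n G → ∃ l : List ℕ, A (bits (adjMatrix G)) = bits l ∧ IsOptimal G l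

/-- the number of distinct entries of a list -/
def nd (l : List ℕ) : ℕ := ((List.range l.length).filter (fun i =>
  (List.range l.length).all (fun j => !(decide (j < i)) ||
    !(decide (l.getD j 0 = l.getD i 0))))).length

theorem nd_eq (l : List ℕ) : nd l = l.toFinset.card := by
  classical
  unfold nd
  set P : ℕ → Bool := fun i => (List.range l.length).all (fun j => !(decide (j < i)) ||
    !(decide (l.getD j 0 = l.getD i 0))) with hP
  have hPi : ∀ i, P i = true ↔ ∀ j < l.length, j < i → l.getD j 0 ≠ l.getD i 0 := by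
    intro i
    simp only [hP, List.all_eq_true, List.mem_range, Bool.or_eq_true, Bool.not_eq_true',
      decide_eq_false_iff_not]
    exact forall_congr' fun j => ⟨fun h hj hji => (h hj).resolve_left (fun h2 => h2 hji),
      fun h hj => by
        by_cases hji : j < i
        · exact Or.inr (h hj hji)
        · exact Or.inl hji⟩
  have h1 : ((List.range l.length).filter P).length =
      ((List.range l.length).filter P).toFinset.card := by
    rw [List.toFinset_card_of_nodup (List.nodup_range.filter _)]
  rw [h1]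
  refine Finset.card_bij (fun i _ => l.getD i 0) ?_ ?_ ?_
  · intro i hi
    simp only [List.mem_toFinset, List.mem_filter, List.mem_range] at hi ⊢
    rw [List.getD_eq_getElem _ _ hi.1]
    exact List.getElem_mem _
  · intro i hi j hj he
    simp only [List.mem_toFinset, List.mem_filter, List.mem_range] at hi hj
    rcases lt_trichotomy i j with h | h | h
    · exact absurd he ((hPi j).1 hj.2 i hi.1 h)
    · exact h
    · exact absurd he.symm ((hPi i).1 hi.2 j hj.1 h)
  · intro x hx
    rw [List.mem_toFinset] at hx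
    have h2 : l.idxOf x < l.length := List.idxOf_lt_length_iff.2 hx
    refine ⟨l.idxOf x, ?_, ?_⟩
    · simp only [List.mem_toFinset, List.mem_filter, List.mem_range]
      refine ⟨h2, (hPi _).2 fun j hj hji he => ?_⟩
      rw [List.getD_eq_getElem _ _ h2, List.getElem_idxOf h2, List.getD_eq_getElem _ _ hj] at he
      have h3 := List.not_of_lt_findIdx (p := fun y => y == x) (xs := l) (i := j) hji
      rw [he] at h3
      simp at h3
    · rw [List.getD_eq_getElem _ _ h2, List.getElem_idxOf h2]

/-- optimal colourings decide colourability -/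
theorem IsOptimal.colorable {n : ℕ} {G : SimpleGraph (Fin n)} {l : List ℕ} (h : IsOptimal G l)
    (k : ℕ) : G.Colorable k ↔ nd l ≤ k := by
  classical
  obtain ⟨C, hl, hC⟩ := h
  have h1 : nd l = (Finset.univ.image C).card := by
    rw [nd_eq, hl]
    congr 1
    ext x
    simp [List.mem_ofFn]
  rw [h1, ← SimpleGraph.chromaticNumber_le_iff_colorable, ← hC, Nat.cast_le]

/-- a polynomial-time function, with an encoded output -/
theorem poly_alg {α : Type} [TEnc α] {A : List Bool → List Bool} (hA : PolyTime A) :
    NPC.Poly (fun a : α => A (bits a)) := by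
  have h1 : PC (fun x : List Bool => x) (fun x : List Bool => x) A :=
    H642R2.TMSim.polyTime_toPC hA
  have h2 : PC (fun x : List Bool => x) (bits : List Bool → List Bool) A :=
    PC.comp (g := fun x => x) (f := A) PC.rawIn h1
  have h4 : PC (bits : α → List Bool) (fun x : List Bool => x) (fun a => bits a) := PC.id
  exact PC.comp (g := A) (f := fun a : α => bits a) h2 h4

theorem nd_poly : NPC.Poly nd := by
  have h1 : UPoly (fun l : List ℕ => l.length) := UPoly.length (by fun_prop)
  unfold nd
  refine NPC.Poly.length ?_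
  refine NPC.Poly.filter (l := fun l : List ℕ => List.range l.length)
    (p := fun l i => (List.range l.length).all (fun j => !(decide (j < i)) ||
      !(decide (l.getD j 0 = l.getD i 0)))) h1.range ?_
  exact NPC.Poly.all (l := fun x : List ℕ × ℕ => List.range x.1.length)
    (p := fun x j => !(decide (j < x.2)) || !(decide (x.1.getD j 0 = x.1.getD x.2 0)))
    (h1.range.comp (NPC.Poly.fst NPC.Poly.id)) (by fun_prop)

attribute [local irreducible] nd

/-- the test of the number of colours of the output -/
def post (x : List Bool × ℕ) : Bool := (unbits (List ℕ) x.1).any (fun l => decide (nd l ≤ x.2))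

theorem post_poly : NPC.Poly post := by
  unfold post
  exact Poly.optAny_fp (o := fun x : List Bool × ℕ => unbits (List ℕ) x.1)
    (h := fun x l => decide (nd l ≤ x.2)) (poly_unbits.comp (NPC.Poly.fst NPC.Poly.id))
    (NPC.Poly.decide_le (nd_poly.comp (NPC.Poly.snd NPC.Poly.id))
      (NPC.Poly.snd (NPC.Poly.fst NPC.Poly.id)))

theorem pEqNP_of_findable (h : FindableOn (fun _ G => Small G)) : PEqNP := by
  obtain ⟨A, hA, hA'⟩ := h
  intro L hL
  obtain ⟨g, hg, hgp, hgL⟩ := hardPr_X3C L hL
  have h1 : NPC.Poly (fun I : Sys × ℕ => post (A (bits (out I).1), (out I).2)) :=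
    post_poly.comp (NPC.Poly.pair ((poly_alg hA).comp (NPC.Poly.fst out_poly))
      (NPC.Poly.snd out_poly))
  have h2 : PC (fun x : List Bool => x) (bits : Bool → List Bool)
      (fun x => post (A (bits (out (g x)).1), (out (g x)).2)) :=
    PC.comp (g := fun I : Sys × ℕ => post (A (bits (out I).1), (out I).2)) (f := g) h1 hg
  refine ⟨fun x => [post (A (bits (out (g x)).1), (out (g x)).2)],
    PC.toPolyTime (PC.comp (g := fun b => [b])
      (f := fun x => post (A (bits (out (g x)).1), (out (g x)).2)) PC.rawBool h2), fun x => ?_⟩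
  change x ∈ L ↔ [post (A (bits (out (g x)).1), (out (g x)).2)] = [true]
  rw [hgL x, gr_colorable (hgp x), out_eq (hgp x)]
  obtain ⟨l, h3, h4⟩ := hA' _ _ (gr_small (hgp x))
  simp only [h3, post, unbits_bits, Option.any_some]
  rw [h4.colorable]
  simp

end Pool.Agent.N598.OHF
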